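import Mathlib

/-!
# Squares of graphs of girth at least five: pendant vertices

A graph `G` without cycles of length 3 and 4, with at least five vertices, whose square is globally
rigid in `ℝ³` although `5G` is not even 6-tree-connected, is obtained from every graph `G₀` (without
cycles of length 3 and 4) whose square is globally rigid, by attaching a new pendant vertex to any
vertex of degree at least three. The smallest example is the star `K_{1,4}`.
-/

set_option autoImplicit false

open MvPolynomial

namespace Pool.Agent.Results.MP_f1f412_co.PendantVertex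

/-- Euclidean 3-space -/
abbrev E3 := EuclideanSpace ℝ (Fin 3)

section defs

variable {V : Type}

/-- The framework `(H, p)` in `ℝ³` is globally rigid. -/
def GloballyRigid (H : SimpleGraph V) (p : V → E3) : Prop :=
  ∀ q : V → E3, (∀ u v, H.Adj u v → dist (q u) (q v) = dist (p u) (p v)) →
    ∀ u v, dist (q u) (q v) = dist (p u) (p v)

/-- The coordinates of the points `p v` are algebraically independent over `ℚ`. -/
def Generic (p : V → E3) : Prop := AlgebraicIndependent ℚ (fun i : V × Fin 3 => p i.1 i.2)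

/-- The square of `G`: `u ≠ v` are adjacent when their distance in `G` is at most 2. -/
def square (G : SimpleGraph V) : SimpleGraph V where
  Adj u v := u ≠ v ∧ (G.Adj u v ∨ ∃ w, G.Adj u w ∧ G.Adj w v)
  symm := ⟨by
    rintro u v ⟨h, h'⟩
    refine ⟨h.symm, ?_⟩
    rcases h' with h' | ⟨w, h1, h2⟩
    · exact Or.inl h'.symm
    · exact Or.inr ⟨w, h2.symm, h1.symm⟩⟩
  loopless := ⟨fun u h => h.1 rfl⟩

/-- `G` has no cycle of length 3 and no cycle of length 4. -/
def NoShortCycle (G : SimpleGraph V) : Prop :=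
  (∀ a b c, G.Adj a b → G.Adj b c → ¬ G.Adj c a) ∧
  (∀ a b c d, a ≠ c → b ≠ d → G.Adj a b → G.Adj b c → G.Adj c d → ¬ G.Adj d a)

/-- `H` is `k`-connected: it stays connected when any `k - 1` vertices are deleted. -/
def KConnected (H : SimpleGraph V) (k : ℕ) : Prop :=
  ∀ S : Finset V, S.card = k - 1 → (H.induce {v | v ∉ S}).Connected

/-- A multigraph on the vertex set `V` with edge set `E`: every edge has an unordered pair of
ends. -/
abbrev Multigraph (V E : Type) := E → Sym2 V

/-- The edge set `T` is a spanning tree of the multigraph `M`: it has no loops and no parallel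
edges, and the corresponding simple graph is a tree on `V`. -/
def IsSpanningTree {E : Type} (M : Multigraph V E) (T : Set E) : Prop :=
  (∀ e ∈ T, ¬ (M e).IsDiag) ∧ Set.InjOn M T ∧ (SimpleGraph.fromEdgeSet (M '' T)).IsTree

/-- `M` contains `k` edge-disjoint spanning trees. -/
def TreeConnected {E : Type} (M : Multigraph V E) (k : ℕ) : Prop :=
  ∃ T : Fin k → Set E, (∀ i, IsSpanningTree M (T i)) ∧ Pairwise fun i j => Disjoint (T i) (T j)

/-- Deleting any single edge of `M` leaves a `k`-tree-connected multigraph. -/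
def HighlyTreeConnected {E : Type} (M : Multigraph V E) (k : ℕ) : Prop :=
  ∀ e : E, TreeConnected (fun f : {f : E // f ≠ e} => M f.1) k

/-- The multigraph `kG`: every edge of `G` is replaced by `k` parallel copies. -/
def copies (k : ℕ) (G : SimpleGraph V) : Multigraph V (G.edgeSet × Fin k) := fun e => e.1.1

/-- The condition (ii) of the problem: `G²` is 4-connected and `5G` is highly
6-tree-connected. -/
def Condition (G : SimpleGraph V) : Prop :=
  KConnected (square G) 4 ∧ HighlyTreeConnected (copies 5 G) 6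

/-- The graph obtained from `G` by adding a new vertex `none` whose only neighbour is `u`. -/
def addPendant (G : SimpleGraph V) (u : V) : SimpleGraph (Option V) where
  Adj x y := (∃ a b, x = some a ∧ y = some b ∧ G.Adj a b) ∨ (x = none ∧ y = some u) ∨
    (x = some u ∧ y = none)
  symm := ⟨by
    rintro x y (⟨a, b, h1, h2, h⟩ | ⟨h1, h2⟩ | ⟨h1, h2⟩)
    · exact Or.inl ⟨b, a, h2, h1, h.symm⟩
    · exact Or.inr (Or.inr ⟨h2, h1⟩)
    · exact Or.inr (Or.inl ⟨h2, h1⟩)⟩
  loopless := ⟨by
    rintro x (⟨a, b, h1, h2, h⟩ | ⟨h1, h2⟩ | ⟨h1, h2⟩)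
    · rw [h1] at h2
      exact h.ne (Option.some_injective _ h2)
    · rw [h1] at h2
      cases h2
    · rw [h1] at h2
      cases h2⟩

end defs

/-! ### Linear algebra -/

section geometry

open scoped InnerProductSpace

/-- Congruent reference points: if `z - x₀` is a combination of the `x r - x₀`, and the distances
of `z` and of `v` to the reference points agree with those of `z'` and `v'`, then
`dist v z = dist v' z'`. -/
lemma dist_eq_of_ref (x0 y0 : E3) (x y : Fin 3 → E3) (z z' v v' : E3) (c : Fin 3 → ℝ)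
    (hz : z - x0 = ∑ r, c r • (x r - x0))
    (hxx : ∀ r s, dist (y r) (y s) = dist (x r) (x s)) (hx0 : ∀ r, dist (y r) y0 = dist (x r) x0)
    (hzx : ∀ r, dist z' (y r) = dist z (x r)) (hz0 : dist z' y0 = dist z x0)
    (hvx : ∀ r, dist v' (y r) = dist v (x r)) (hv0 : dist v' y0 = dist v x0) :
    dist v' z' = dist v z := by
  -- polarization
  have pol : ∀ a b o a' b' o' : E3, dist a' o' = dist a o → dist b' o' = dist b o →
      dist a' b' = dist a b → ⟪a' - o', b' - o'⟫_ℝ = ⟪a - o, b - o⟫_ℝ := by
    intro a b o a' b' o' h1 h2 h3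
    have e1 := norm_sub_sq_real (a' - o') (b' - o')
    have e2 := norm_sub_sq_real (a - o) (b - o)
    rw [sub_sub_sub_cancel_right, ← dist_eq_norm, ← dist_eq_norm, ← dist_eq_norm] at e1 e2
    rw [h1, h2, h3] at e1
    linarith
  have hz'z : ‖z' - y0‖ ^ 2 = ‖z - x0‖ ^ 2 := by
    rw [← dist_eq_norm, ← dist_eq_norm, hz0]
  have hrs : ∀ r s, ⟪y r - y0, y s - y0⟫_ℝ = ⟪x r - x0, x s - x0⟫_ℝ := fun r s =>
    pol _ _ _ _ _ _ (hx0 r) (hx0 s) (hxx r s)
  have hzr : ∀ r, ⟪z' - y0, y r - y0⟫_ℝ = ⟪z - x0, x r - x0⟫_ℝ := fun r =>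
    pol _ _ _ _ _ _ hz0 (hx0 r) (hzx r)
  have hvr : ∀ r, ⟪v' - y0, y r - y0⟫_ℝ = ⟪v - x0, x r - x0⟫_ℝ := fun r =>
    pol _ _ _ _ _ _ hv0 (hx0 r) (hvx r)
  have hz' : z' - y0 = ∑ r, c r • (y r - y0) := by
    rw [← sub_eq_zero, ← norm_eq_zero, ← sq_eq_zero_iff, norm_sub_sq_real, hz'z]
    have h1 : ⟪z' - y0, ∑ r, c r • (y r - y0)⟫_ℝ = ⟪z - x0, ∑ r, c r • (x r - x0)⟫_ℝ := by
      simp only [inner_sum, inner_smul_right, hzr]
    have h2 : ‖∑ r, c r • (y r - y0)‖ ^ 2 = ‖∑ r, c r • (x r - x0)‖ ^ 2 := by
      rw [← real_inner_self_eq_norm_sq, ← real_inner_self_eq_norm_sq]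
      simp only [inner_sum, sum_inner, inner_smul_right, inner_smul_left, hrs]
    rw [h1, h2, ← hz, real_inner_self_eq_norm_sq]
    ring
  have hvz : ⟪v' - y0, z' - y0⟫_ℝ = ⟪v - x0, z - x0⟫_ℝ := by
    rw [hz', hz]
    simp only [inner_sum, inner_smul_right, hvr]
  have hsq : dist v' z' ^ 2 = dist v z ^ 2 := by
    have e1 := norm_sub_sq_real (v' - y0) (z' - y0)
    have e2 := norm_sub_sq_real (v - x0) (z - x0)
    rw [sub_sub_sub_cancel_right, ← dist_eq_norm, ← dist_eq_norm, ← dist_eq_norm] at e1 e2
    rw [hvz, hv0, hz0] at e1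
    linarith
  have := sq_eq_sq₀ (dist_nonneg (x := v') (y := z')) (dist_nonneg (x := v) (y := z))
  exact this.1 hsq

/-- Four distinct points of a generic configuration are affinely independent. -/
lemma exists_coeff {V : Type} {p : V → E3} (hp : Generic p) {a : V} {t : Fin 3 → V}
    (ht : Function.Injective t) (ha : ∀ r, t r ≠ a) (z : E3) :
    ∃ c : Fin 3 → ℝ, z - p a = ∑ r, c r • (p (t r) - p a) := by
  classical
  set P : Matrix (Fin 3) (Fin 3) (MvPolynomial (V × Fin 3) ℚ) :=
    Matrix.of fun r i => X (t r, i) - X (a, i) with hP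
  have hdet0 : P.det ≠ 0 := by
    intro h0
    have h1 := congrArg (MvPolynomial.eval fun x : V × Fin 3 =>
      if x.1 = t x.2 then (1 : ℚ) else 0) h0
    rw [RingHom.map_det, map_zero] at h1
    have h2 : (RingHom.mapMatrix (MvPolynomial.eval fun x : V × Fin 3 =>
        if x.1 = t x.2 then (1 : ℚ) else 0)) P = 1 := by
      ext r i
      simp only [hP, RingHom.mapMatrix_apply, Matrix.map_apply, Matrix.of_apply, map_sub, eval_X]
      rw [if_neg (ha i).symm, sub_zero, Matrix.one_apply]
      by_cases hri : r = i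
      · subst hri; simp
      · rw [if_neg (fun h => hri (ht h)), if_neg hri]
    rw [h2, Matrix.det_one] at h1
    exact one_ne_zero h1
  set M : Matrix (Fin 3) (Fin 3) ℝ := Matrix.of fun r i => p (t r) i - p a i with hM
  have hMdet : M.det ≠ 0 := by
    intro h0
    apply hdet0
    apply hp
    rw [map_zero, AlgHom.map_det]
    rw [← h0]
    congr 1
    ext r i
    simp [hP, hM, AlgHom.mapMatrix_apply]
  have hunit : IsUnit M.det := isUnit_iff_ne_zero.2 hMdet
  refine ⟨Matrix.vecMul (fun i => z i - p a i) M⁻¹, ?_⟩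
  have h3 : Matrix.vecMul (Matrix.vecMul (fun i => z i - p a i) M⁻¹) M =
      fun i => z i - p a i := by
    rw [Matrix.vecMul_vecMul, Matrix.nonsing_inv_mul _ hunit, Matrix.vecMul_one]
  ext i
  have h4 := congrFun h3 i
  rw [Matrix.vecMul, dotProduct] at h4
  simp only [PiLp.sub_apply, WithLp.ofLp_sum, WithLp.ofLp_smul, Finset.sum_apply, Pi.smul_apply,
    smul_eq_mul, WithLp.ofLp_sub, Pi.sub_apply]
  rw [← h4]
  simp [hM]

open Cardinal in
lemma exists_generic (V : Type) [Finite V] : ∃ p : V → E3, Generic p := by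
  classical
  obtain ⟨s, hs⟩ := exists_isTranscendenceBasis ℚ ℝ
  have hinf : Infinite s := by
    by_contra hfin
    rw [not_infinite_iff_finite] at hfin
    have : Algebra.IsAlgebraic (Algebra.adjoin ℚ (Set.range ((↑) : s → ℝ))) ℝ := hs.isAlgebraic
    have h1 := Algebra.IsAlgebraic.cardinalMk_le_max
      (Algebra.adjoin ℚ (Set.range ((↑) : s → ℝ))) ℝ
    have h2 : #(Algebra.adjoin ℚ (Set.range ((↑) : s → ℝ))) ≤ ℵ₀ := by
      rw [← Cardinal.mk_congr hs.1.aevalEquiv.toEquiv]
      refine MvPolynomial.cardinalMk_le_max.trans (max_le (max_le ?_ ?_) le_rfl)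
      · exact Cardinal.mk_le_aleph0
      · exact Cardinal.mk_le_aleph0
    have h3 : #ℝ ≤ ℵ₀ := h1.trans (max_le h2 le_rfl)
    rw [Cardinal.mk_real] at h3
    exact absurd h3 (not_le.2 Cardinal.aleph0_lt_continuum)
  have hfin : Finite (V × Fin 3) := by infer_instance
  obtain ⟨n, ⟨e⟩⟩ := Finite.exists_equiv_fin (V × Fin 3)
  obtain ⟨f⟩ : Nonempty (Fin n ↪ s) := ⟨(Fin.valEmbedding).trans (Infinite.natEmbedding s)⟩
  refine ⟨fun v => WithLp.toLp 2 (fun i => (f (e (v, i)) : ℝ)), ?_⟩
  exact hs.1.comp (fun x : V × Fin 3 => f (e x)) (f.injective.comp e.injective)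

lemma Generic.restrict {V : Type} {p : Option V → E3} (hp : Generic p) :
    Generic fun v => p (some v) :=
  AlgebraicIndependent.comp hp (fun x : V × Fin 3 => (some x.1, x.2)) (by
    rintro ⟨a, i⟩ ⟨b, j⟩ h
    simp only [Prod.mk.injEq, Option.some.injEq] at h
    rw [h.1, h.2])

end geometry

/-! ### Adding a pendant vertex -/

section graph

variable {V : Type}

lemma adj_some_some {G : SimpleGraph V} {u a b : V} :
    (addPendant G u).Adj (some a) (some b) ↔ G.Adj a b := by
  simp [addPendant]

lemma adj_none_some {G : SimpleGraph V} {u b : V} :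
    (addPendant G u).Adj none (some b) ↔ b = u := by
  simp [addPendant]

lemma adj_some_none {G : SimpleGraph V} {u b : V} :
    (addPendant G u).Adj (some b) none ↔ b = u := by
  simp [addPendant]

lemma adj_none_none {G : SimpleGraph V} {u : V} : ¬ (addPendant G u).Adj none none := by
  simp [addPendant]

lemma NoShortCycle.addPendant {G : SimpleGraph V} (hG : NoShortCycle G) (u : V) :
    NoShortCycle (addPendant G u) := by
  refine ⟨?_, ?_⟩
  · rintro (_ | a) (_ | b) (_ | c) <;>
      simp only [adj_some_some, adj_none_some, adj_some_none, adj_none_none, false_imp_iff,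
        not_false_eq_true, imp_true_iff]
    · rintro rfl h rfl
      exact h.ne rfl
    · rintro rfl rfl h
      exact h.ne rfl
    · rintro h rfl rfl
      exact h.ne rfl
    · exact hG.1 a b c
  · rintro (_ | a) (_ | b) (_ | c) (_ | d) <;>
      simp only [adj_some_some, adj_none_some, adj_some_none, adj_none_none, false_imp_iff,
        not_false_eq_true, imp_true_iff, ne_eq, not_true_eq_false, Option.some.injEq, reduceCtorEq]
    · rintro - h h1 - - h2
      exact h (h1.trans h2.symm)
    · rintro h - h1 h2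
      exact absurd (h1.trans h2.symm) h
    · rintro - h - h1 h2
      exact absurd (h1.trans h2.symm) h
    · rintro h - - - h1 h2
      exact h (h2.trans h1.symm)
    · exact hG.2 a b c d

/-- Global rigidity of the square is preserved when a pendant vertex is attached to a vertex with
three neighbours. -/
lemma globallyRigid_addPendant {G : SimpleGraph V} {u : V} {t : Fin 3 → V}
    (ht : Function.Injective t) (hu : ∀ r, G.Adj u (t r)) {p : Option V → E3} (hp : Generic p)
    (hG : GloballyRigid (square G) fun v => p (some v)) :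
    GloballyRigid (square (addPendant G u)) p := by
  intro q hq
  have h1 : ∀ a b : V, dist (q (some a)) (q (some b)) = dist (p (some a)) (p (some b)) := by
    refine hG (fun v => q (some v)) ?_
    rintro a b ⟨hab, h⟩
    refine hq _ _ ⟨fun h => hab (Option.some_injective _ h), ?_⟩
    rcases h with h | ⟨w, h2, h3⟩
    · exact Or.inl (adj_some_some.2 h)
    · exact Or.inr ⟨some w, adj_some_some.2 h2, adj_some_some.2 h3⟩
  have h2 : dist (q none) (q (some u)) = dist (p none) (p (some u)) :=
    hq _ _ ⟨by simp, Or.inl (adj_none_some.2 rfl)⟩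
  have h3 : ∀ r, dist (q none) (q (some (t r))) = dist (p none) (p (some (t r))) := fun r =>
    hq _ _ ⟨by simp, Or.inr ⟨some u, adj_none_some.2 rfl, adj_some_some.2 (hu r)⟩⟩
  have h4 : ∀ v : V, dist (q none) (q (some v)) = dist (p none) (p (some v)) := by
    intro v
    obtain ⟨c, hc⟩ := exists_coeff hp.restrict ht (fun r => (hu r).ne') (p (some v))
    exact dist_eq_of_ref (p (some u)) (q (some u)) (fun r => p (some (t r)))
      (fun r => q (some (t r))) (p (some v)) (q (some v)) (p none) (q none) c hc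
      (fun r s => h1 _ _) (fun r => h1 _ _) (fun r => h1 _ _) (h1 _ _) h3 h2
  rintro (_ | a) (_ | b)
  · simp
  · exact h4 b
  · rw [dist_comm, h4 a, dist_comm]
  · exact h1 a b

/-- A multigraph in which at most five edges contain the vertex `x` does not contain six
edge-disjoint spanning trees. -/
lemma not_treeConnected {E : Type} (M : Multigraph V E) {x y : V} (hxy : x ≠ y) (g : E → Fin 5)
    (hg : ∀ e f, x ∈ M e → x ∈ M f → g e = g f → e = f) : ¬ TreeConnected M 6 := by
  rintro ⟨T, hT, hdisj⟩
  have h1 : ∀ i, ∃ e ∈ T i, x ∈ M e := by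
    intro i
    obtain ⟨-, -, htree⟩ := hT i
    obtain ⟨w⟩ := htree.connected.preconnected x y
    cases w with
    | nil => exact absurd rfl hxy
    | cons h _ =>
      rw [SimpleGraph.fromEdgeSet_adj] at h
      obtain ⟨⟨e, he, hee⟩, -⟩ := h
      exact ⟨e, he, by rw [hee]; exact Sym2.mem_mk_left _ _⟩
  choose e he hx using h1
  have hinj : Function.Injective fun i => g (e i) := by
    intro i j hij
    by_contra hne
    have := hg _ _ (hx i) (hx j) hij
    exact Set.disjoint_left.1 (hdisj hne) (he i) (this ▸ he j)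
  have := Fintype.card_le_of_injective _ hinj
  simp at this

/-- If `G` has a vertex `x` of degree one, then `5G` is not 6-tree-connected, let alone highly
6-tree-connected. -/
lemma not_treeConnected_copies {G : SimpleGraph V} {x y : V} (h : ∀ z, G.Adj x z ↔ z = y) :
    ¬ TreeConnected (copies 5 G) 6 ∧ ¬ HighlyTreeConnected (copies 5 G) 6 := by
  have hxy : G.Adj x y := (h y).2 rfl
  have key : ∀ e : G.edgeSet × Fin 5, x ∈ copies 5 G e → e.1 = ⟨s(x, y), hxy⟩ := by
    rintro ⟨⟨e, he⟩, k⟩ hx
    obtain ⟨z, rfl⟩ := Sym2.mem_iff_exists.1 hx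
    have hz : z = y := (h z).1 he
    subst hz
    rfl
  have key2 : ∀ e f : G.edgeSet × Fin 5, x ∈ copies 5 G e → x ∈ copies 5 G f → e.2 = f.2 →
      e = f := fun e f he hf hef => Prod.ext ((key e he).trans (key f hf).symm) hef
  refine ⟨not_treeConnected _ hxy.ne (fun e => e.2) key2, fun hH => ?_⟩
  refine not_treeConnected _ hxy.ne (fun f => f.1.2) ?_ (hH (⟨s(x, y), hxy⟩, 0))
  intro e f he hf hef
  exact Subtype.ext (key2 _ _ he hf hef)

end graph

/-! ### Examples -/

/-- The star with centre `0`. -/
def star (n : ℕ) : SimpleGraph (Fin (n + 1)) where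
  Adj i j := i ≠ j ∧ (i = 0 ∨ j = 0)
  symm := ⟨fun _ _ h => ⟨h.1.symm, h.2.symm⟩⟩
  loopless := ⟨fun _ h => h.1 rfl⟩

lemma square_star (n : ℕ) : square (star n) = ⊤ := by
  ext i j
  simp only [square, star, SimpleGraph.top_adj]
  constructor
  · exact fun h => h.1
  · intro h
    refine ⟨h, ?_⟩
    by_cases hi : i = 0
    · exact Or.inl ⟨h, Or.inl hi⟩
    · by_cases hj : j = 0
      · exact Or.inl ⟨h, Or.inr hj⟩
      · exact Or.inr ⟨0, ⟨hi, Or.inr rfl⟩, ⟨Ne.symm hj, Or.inl rfl⟩⟩

lemma noShortCycle_star (n : ℕ) : NoShortCycle (star n) := by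
  refine ⟨?_, ?_⟩
  · rintro a b c ⟨h1, h2⟩ ⟨h3, h4⟩ ⟨h5, h6⟩
    rcases h2 with rfl | rfl
    · rcases h4 with rfl | rfl
      · exact h1 rfl
      · exact h5 rfl
    · rcases h6 with rfl | rfl
      · exact h3 rfl
      · exact h1 rfl
  · rintro a b c d hac hbd ⟨h1, h2⟩ ⟨h3, h4⟩ ⟨h5, h6⟩ ⟨h7, h8⟩
    rcases h2 with rfl | rfl
    · rcases h6 with rfl | rfl
      · exact hac rfl
      · exact h7 rfl
    · rcases h6 with rfl | rfl
      · exact h3 rfl
      · exact hbd rfl

lemma kConnected_top {n k : ℕ} (h : k ≤ n) (hk : 1 ≤ k) : KConnected (⊤ : SimpleGraph (Fin n)) k := by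
  intro S hS
  have : ∃ v : Fin n, v ∉ S := by
    by_contra hcon
    push Not at hcon
    have : S = Finset.univ := Finset.eq_univ_iff_forall.2 hcon
    rw [this, Finset.card_univ, Fintype.card_fin] at hS
    omega
  obtain ⟨v, hv⟩ := this
  rw [SimpleGraph.connected_iff]
  refine ⟨?_, ⟨⟨v, hv⟩⟩⟩
  rintro ⟨a, ha⟩ ⟨b, hb⟩
  by_cases hab : a = b
  · subst hab; exact SimpleGraph.Reachable.refl _
  · exact SimpleGraph.Adj.reachable (by simpa using hab)

lemma globallyRigid_top {V : Type} (p : V → E3) : GloballyRigid (⊤ : SimpleGraph V) p := by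
  intro q hq u v
  by_cases h : u = v
  · subst h; simp
  · exact hq u v (by simpa using h)

/-- Q1 is false as posed. -/
theorem result :
    -- for every `n ≥ 5` the asserted equivalence fails for a graph on `n` vertices
    (∀ n : ℕ, 5 ≤ n → ∃ G : SimpleGraph (Fin n), NoShortCycle G ∧ KConnected (square G) 4 ∧
      (∃ p : Fin n → E3, Generic p) ∧
      (∀ p : Fin n → E3, Generic p → GloballyRigid (square G) p) ∧
      ¬ TreeConnected (copies 5 G) 6 ∧ ¬ Condition G) ∧
    -- and it fails for every graph obtained from a graph `G` without cycles of length 3 and 4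
    -- whose square is globally rigid, by attaching a pendant vertex at a vertex `u` of degree at
    -- least three
    (∀ (V : Type) [Finite V] (G : SimpleGraph V) (u : V), NoShortCycle G →
      3 ≤ (G.neighborSet u).encard →
      (∀ p : V → E3, Generic p → GloballyRigid (square G) p) →
      NoShortCycle (addPendant G u) ∧
      (∃ p : Option V → E3, Generic p) ∧
      (∀ p : Option V → E3, Generic p → GloballyRigid (square (addPendant G u)) p) ∧
      ¬ TreeConnected (copies 5 (addPendant G u)) 6 ∧ ¬ Condition (addPendant G u)) := by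
  refine ⟨?_, ?_⟩
  · intro n hn
    obtain ⟨m, rfl⟩ : ∃ m, n = m + 1 := ⟨n - 1, by omega⟩
    have hdeg : ∀ z, (star m).Adj (Fin.last m) z ↔ z = 0 := by
      intro z
      have h0 : Fin.last m ≠ 0 := by
        rw [Ne, Fin.ext_iff]; simp; omega
      constructor
      · rintro ⟨h1, h2⟩
        exact h2.resolve_left h0
      · rintro rfl
        exact ⟨h0, Or.inr rfl⟩
    refine ⟨star m, noShortCycle_star m, ?_, exists_generic _, ?_,
      (not_treeConnected_copies hdeg).1, fun h => (not_treeConnected_copies hdeg).2 h.2⟩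
    · rw [square_star]
      exact kConnected_top (by omega) (by norm_num)
    · intro p _
      rw [square_star]
      exact globallyRigid_top p
  · intro V hV G u hG hu hrig
    have hdeg : ∀ z, (addPendant G u).Adj none z ↔ z = some u := by
      rintro (_ | z)
      · simp
      · simp [adj_none_some]
    obtain ⟨t, ht, htu⟩ : ∃ t : Fin 3 → V, Function.Injective t ∧ ∀ r, G.Adj u (t r) := by
      obtain ⟨s, hs, hcard⟩ := Set.exists_subset_encard_eq hu
      have hfin : s.Finite := Set.finite_of_encard_eq_coe hcard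
      have : s.ncard = 3 := by
        rw [Set.ncard, hcard]; rfl
      obtain ⟨a, b, c, hab, hac, hbc, rfl⟩ := Set.ncard_eq_three.1 this
      refine ⟨![a, b, c], ?_, ?_⟩
      · intro i j hij
        fin_cases i <;> fin_cases j <;> simp_all
      · intro r
        fin_cases r
        · exact hs (by simp)
        · exact hs (by simp)
        · exact hs (by simp)
    exact ⟨hG.addPendant u, exists_generic _,
      fun p hp => globallyRigid_addPendant ht htu hp (hrig _ hp.restrict),
      (not_treeConnected_copies hdeg).1, fun h => (not_treeConnected_copies hdeg).2 h.2⟩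

end Pool.Agent.Results.MP_f1f412_co.PendantVertex
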